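import Pool.Agent.L7h31.CR.Stm

set_option autoImplicit false

namespace Pool.Agent.L7h31.CR

open Set

/-- comparison of distances to two points of the same height -/
theorem hdist_le_iff_same {ι : Type} [Fintype ι] (z p q : Hyp ι) (h : p.y = q.y) :
    hdist z p ≤ hdist z q ↔ sq z p ≤ sq z q := by
  unfold hdist
  have hy : 0 < 2 * √(z.y * q.y) := by
    have := z.pos
    have := q.pos
    positivity
  rw [h]
  constructor
  · intro h1
    have h2 : Real.arsinh (√(sq z p) / (2 * √(z.y * q.y))) ≤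
        Real.arsinh (√(sq z q) / (2 * √(z.y * q.y))) := by linarith
    rw [Real.arsinh_le_arsinh, div_le_div_iff_of_pos_right hy] at h2
    refine (Real.sqrt_le_sqrt_iff ?_).1 h2
    unfold sq
    positivity
  · intro h1
    have h2 : Real.arsinh (√(sq z p) / (2 * √(z.y * q.y))) ≤
        Real.arsinh (√(sq z q) / (2 * √(z.y * q.y))) := by
      rw [Real.arsinh_le_arsinh, div_le_div_iff_of_pos_right hy]
      exact Real.sqrt_le_sqrt h1
    linarith

theorem s_NON : S_WALL2 → S_SD → S_NON := by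
  intro hW hS k A hI
  classical
  -- the wall x_0 = 0
  let p0 : Hyp (ZMod (k + 1)) := ⟨fun i => if i = 0 then -1 else 0, 1, one_pos⟩
  let q0 : Hyp (ZMod (k + 1)) := ⟨fun i => if i = 0 then 1 else 0, 1, one_pos⟩
  have hsq : ∀ z : Hyp (ZMod (k + 1)), sq z p0 - sq z q0 = 4 * z.x 0 := by
    intro z
    unfold sq
    have h1 : ∀ i : ZMod (k + 1), (z.x i - p0.x i) ^ 2 - (z.x i - q0.x i) ^ 2 =
        if i = 0 then 4 * z.x i else 0 := by
      intro i
      show (z.x i - (if i = 0 then -1 else 0)) ^ 2 - (z.x i - (if i = 0 then 1 else 0)) ^ 2 = _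
      split_ifs <;> ring
    have h2 : (∑ i, (z.x i - p0.x i) ^ 2) - (∑ i, (z.x i - q0.x i) ^ 2) = 4 * z.x 0 := by
      rw [← Finset.sum_sub_distrib, Finset.sum_congr rfl fun i _ => h1 i]
      simp
    have h3 : p0.y = q0.y := rfl
    rw [h3]
    linarith
  have hle : ∀ z : Hyp (ZMod (k + 1)), hdist z p0 ≤ hdist z q0 ↔ z.x 0 ≤ 0 := by
    intro z
    rw [hdist_le_iff_same z p0 q0 rfl]
    have := hsq z
    constructor <;> intro h <;> linarith
  have hge : ∀ z : Hyp (ZMod (k + 1)), hdist z q0 ≤ hdist z p0 ↔ 0 ≤ z.x 0 := by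
    intro z
    rw [hdist_le_iff_same z q0 p0 rfl]
    have := hsq z
    constructor <;> intro h <;> linarith
  have hne : p0 ≠ q0 := by
    intro h
    have := congrArg (fun p : Hyp (ZMod (k + 1)) => p.x 0) h
    simp [p0, q0] at this
    norm_num at this
  have hwall : ∀ P ∈ tiles A, P ⊆ HS p0 q0 ∨ P ⊆ HS q0 p0 := by
    rintro P ⟨l, a, rfl⟩
    have hs := (hS k A 0 l).1
    rcases le_or_gt 0 (a 0) with h | h
    · right
      intro z hz
      refine (hge z).2 (le_trans ?_ (hz.1 0).1)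
      have : (0 : ℝ) ≤ a 0 := by exact_mod_cast h
      positivity
    · left
      intro z hz
      refine (hle z).2 (le_trans (hz.1 0).2 ?_)
      have : (a 0 : ℝ) + 1 ≤ 0 := by exact_mod_cast h
      exact mul_nonpos_of_nonpos_of_nonneg this hs.le
  -- the isometry
  obtain ⟨g, hg, hgT, hgP⟩ := hI (tile A 0 0) ⟨0, 0, rfl⟩ (tile A 0 1) ⟨0, 1, rfl⟩
  have himg : ∀ p q : Hyp (ZMod (k + 1)), ∀ P : Set (Hyp (ZMod (k + 1))), P ⊆ HS p q →
      g '' P ⊆ HS (g p) (g q) := by
    rintro p q P h _ ⟨z, hz, rfl⟩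
    show hdist (g z) (g p) ≤ hdist (g z) (g q)
    rw [hg, hg]
    exact h hz
  have hwall' : Wall (tiles A) (g p0) (g q0) := by
    refine ⟨fun h => hne (g.injective h), fun P hP => ?_⟩
    rw [← hgT] at hP
    obtain ⟨P', hP', rfl⟩ := hP
    rcases hwall P' hP' with h | h
    · exact Or.inl (himg _ _ _ h)
    · exact Or.inr (himg _ _ _ h)
  obtain ⟨i, hi⟩ := hW k A _ _ hwall'
  -- a point of the first tile on the wall
  have hG : ∀ l : ℤ, GG A l 0 = A.c * A.lam ^ (2 * l) := by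
    intro l
    unfold GG gf
    simp
  have hc : 0 < A.c := by
    have h1 := A.big
    have h2 := A.one_lt
    have h3 : 0 < A.lam ^ 2 - 1 := by nlinarith
    by_contra hcn
    push Not at hcn
    have : A.c * (A.lam ^ 2 - 1) ≤ 0 := mul_nonpos_of_nonpos_of_nonneg hcn h3.le
    have h4 : (0 : ℝ) ≤ k := Nat.cast_nonneg k
    linarith
  let z0 : Hyp (ZMod (k + 1)) := ⟨0, √A.c, Real.sqrt_pos.2 hc⟩
  have hz0 : z0 ∈ tile A 0 0 := by
    refine ⟨fun j => ?_, ?_, ?_⟩
    · have hs := (hS k A j 0).1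
      constructor
      · simp [z0]
      · simp only [z0, Pi.zero_apply, Int.cast_zero, zero_add, one_mul]
        exact hs.le
    · show GG A (0 - 1) 0 ≤ (√A.c) ^ 2
      rw [hG, Real.sq_sqrt hc.le]
      have h1 : A.lam ^ (2 * (0 - 1) : ℤ) ≤ 1 := zpow_le_one_of_nonpos₀ A.one_lt.le (by norm_num)
      nlinarith
    · show (√A.c) ^ 2 ≤ GG A 0 0
      rw [hG, Real.sq_sqrt hc.le]
      simp
  have h1 : g z0 ∈ tile A 0 1 := by
    rw [← hgP]
    exact ⟨z0, hz0, rfl⟩
  have h2 : hdist (g z0) (g p0) = hdist (g z0) (g q0) := by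
    rw [hg, hg]
    apply le_antisymm
    · exact (hle z0).2 (le_of_eq rfl)
    · exact (hge z0).2 (le_of_eq rfl)
  have h3 := (hi (g z0)).1 h2
  have h4 := (h1.1 i).1
  rw [h3] at h4
  have h5 := (hS k A i 0).1
  simp only [Pi.one_apply, Int.cast_one, one_mul] at h4
  linarith

end Pool.Agent.L7h31.CR
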