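import Pool.Agent.L7h31.CR.Stm

set_option autoImplicit false

namespace Pool.Agent.L7h31.CR

open Set

theorem s_TIL : S_COV → S_LEV → S_DIS → S_POLY → S_FACE0 → S_FACE1 → S_FACE2 → S_TIL := by
  intro hC hL hD hP h0 h1 h2 k A
  refine ⟨?_, ?_, ?_, ?_, ?_⟩
  · have : tiles A = Set.range (fun q : ℤ × (ZMod (k + 1) → ℤ) => tile A q.1 q.2) := by
      ext P
      constructor
      · rintro ⟨l, a, rfl⟩
        exact ⟨(l, a), rfl⟩
      · rintro ⟨⟨l, a⟩, rfl⟩
        exact ⟨l, a, rfl⟩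
    rw [this]
    exact Set.countable_range _
  · intro z
    obtain ⟨l, a, hz⟩ := hC k A z
    exact ⟨_, ⟨l, a, rfl⟩, hz⟩
  · rintro P ⟨l, a, rfl⟩ Q ⟨l', a', rfl⟩ hne
    exact hD k A l l' a a' hne
  · rintro P ⟨l, a, rfl⟩
    exact hP k A l a
  · rintro P ⟨l, a, rfl⟩ Q ⟨l', a', rfl⟩ hne
    rcases Set.eq_empty_or_nonempty (tile A l a ∩ tile A l' a') with he | hn
    · exact Or.inl he
    right
    have u1 := hL k A l l' a a' hn
    have u2 := hL k A l' l a' a (by rwa [Set.inter_comm])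
    have hnn := hn.ne_empty
    rcases lt_trichotomy l l' with h | h | h
    · obtain rfl : l' = l + 1 := by omega
      exact ⟨(h1 k A l a a').resolve_left hnn, (h2 k A l a a').resolve_left hnn⟩
    · subst h
      have haa : a ≠ a' := fun h => hne (by rw [h])
      refine ⟨(h0 k A l a a' haa).resolve_left hnn, ?_⟩
      have hn' : tile A l a' ∩ tile A l a ≠ ∅ := by rwa [Set.inter_comm]
      have := (h0 k A l a' a haa.symm).resolve_left hn'
      rwa [Set.inter_comm] at this
    · obtain rfl : l = l' + 1 := by omega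
      have hn' : tile A l' a' ∩ tile A (l' + 1) a ≠ ∅ := by rwa [Set.inter_comm]
      refine ⟨?_, ?_⟩
      · have := (h2 k A l' a' a).resolve_left hn'
        rwa [Set.inter_comm] at this
      · have := (h1 k A l' a' a).resolve_left hn'
        rwa [Set.inter_comm] at this

theorem s_PAR : S_PAR := by
  intro k
  have hk : (0 : ℝ) < (k : ℝ) + 1 := by positivity
  set lam : ℝ := 2 ^ (1 / ((k : ℝ) + 1)) with hl
  have h1 : 1 < lam := by
    rw [hl]
    exact Real.one_lt_rpow (by norm_num) (by positivity)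
  have h2 : lam ^ (k + 1) = 2 := by
    rw [hl, ← Real.rpow_natCast, ← Real.rpow_mul (by norm_num)]
    push_cast
    rw [one_div, inv_mul_cancel₀ hk.ne', Real.rpow_one]
  have h3 : 0 < lam ^ 2 - 1 := by nlinarith
  refine ⟨⟨lam, ((k : ℝ) + 2) / (lam ^ 2 - 1), h1, h2, ?_⟩⟩
  rw [div_mul_cancel₀ _ h3.ne']
  linarith

end Pool.Agent.L7h31.CR
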