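import Mathlib

/-!
# Project CR (MP_6d95fe_co): `k_n(H^n) ≥ n`

THEOREM. For every `n ≥ 2` there is a monohedral face-to-face tiling of hyperbolic `n`-space by convex
polytopes in which for all `k ≤ n - 1` any two tiles have congruent `k`-th coronas (by isometries
carrying the one tile to the other), but which is not isohedral.

CONSTRUCTION. `m = n - 1 = k + 1`, upper half-space `(x, y)`, `x ∈ ℝ^m`, `λ^m = 2`. At the level `l` the
space `ℝ^m` is divided into the boxes `∏ [a i s_i(l), (a i + 1) s_i(l)]` with sides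
`s_i(l) = λ^e`, `e ≡ i` mod `m`, `l ≤ e < l + m` (so all boxes at all levels are similar, and a box of
the level `l + 1` is bisected, orthogonally to its longest side, into two boxes of the level `l`). Let
`G_l(x) = c λ^(2l) + ∑ s_i(l)^2 g(x_i / s_i(l))`, `g(t) = fract t (1 - fract t)`: the surface
`y^2 = G_l(x)` consists of the pieces of the hyperbolic hyperplanes (spheres) spanned by the boxes at the
height `√c λ^l`. The tiles are
`{(x, y) | x in a box of the level l, G_(l-1)(x) ≤ y^2 ≤ G_l(x)}`.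
-/

set_option autoImplicit false

namespace Pool.Agent.L7h31.CR

open scoped BigOperators Topology

/-- hyperbolic space of dimension `|ι| + 1`, the upper half-space -/
@[ext] structure Hyp (ι : Type) where
  x : ι → ℝ
  y : ℝ
  pos : 0 < y

/-- the topology of the half-space -/
instance (ι : Type) : TopologicalSpace (Hyp ι) :=
  TopologicalSpace.induced (fun p : Hyp ι => (p.x, p.y)) inferInstance

variable {ι : Type} [Fintype ι]

/-- square of the euclidean distance -/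
noncomputable def sq (p q : Hyp ι) : ℝ := (∑ i, (p.x i - q.x i) ^ 2) + (p.y - q.y) ^ 2

/-- hyperbolic distance -/
noncomputable def hdist (p q : Hyp ι) : ℝ :=
  2 * Real.arsinh (√(sq p q) / (2 * √(p.y * q.y)))

/-- the closed half-space which contains `p` and is bounded by the bisector of `p`, `q` -/
def HS (p q : Hyp ι) : Set (Hyp ι) := {z | hdist z p ≤ hdist z q}

/-- convex polytopes -/
structure IsPolytope (P : Set (Hyp ι)) : Prop where
  compact : IsCompact P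
  interior : (interior P).Nonempty
  inter : ∃ F : Finset (Hyp ι × Hyp ι), (∀ c ∈ F, c.1 ≠ c.2) ∧ P = {z | ∀ c ∈ F, z ∈ HS c.1 c.2}

/-- faces: intersections with supporting hyperplanes -/
def IsFace (P A : Set (Hyp ι)) : Prop :=
  ∃ p q : Hyp ι, p ≠ q ∧ P ⊆ HS p q ∧ A = {z | z ∈ P ∧ hdist z p = hdist z q}

/-- face-to-face tilings by convex polytopes -/
structure IsTiling (T : Set (Set (Hyp ι))) : Prop where
  countable : T.Countable
  cover : ∀ z, ∃ P ∈ T, z ∈ P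
  disj : ∀ P ∈ T, ∀ Q ∈ T, P ≠ Q → Disjoint (interior P) (interior Q)
  poly : ∀ P ∈ T, IsPolytope P
  face : ∀ P ∈ T, ∀ Q ∈ T, P ≠ Q → P ∩ Q = ∅ ∨ (IsFace P (P ∩ Q) ∧ IsFace Q (P ∩ Q))

/-- isometries -/
def IsIso (g : Hyp ι ≃ Hyp ι) : Prop := ∀ p q, hdist (g p) (g q) = hdist p q

/-- all tiles are congruent -/
def Monohedral (T : Set (Set (Hyp ι))) : Prop :=
  ∀ P ∈ T, ∀ Q ∈ T, ∃ g : Hyp ι ≃ Hyp ι, IsIso g ∧ g '' P = Q

/-- the symmetry group of the tiling is transitive on the tiles -/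
def Isohedral (T : Set (Set (Hyp ι))) : Prop :=
  ∀ P ∈ T, ∀ Q ∈ T, ∃ g : Hyp ι ≃ Hyp ι, IsIso g ∧ (fun A => g '' A) '' T = T ∧ g '' P = Q

/-- the `k`-th corona of `P` -/
def corona (T : Set (Set (Hyp ι))) (P : Set (Hyp ι)) : ℕ → Set (Set (Hyp ι))
  | 0 => {P}
  | k + 1 => {Q | Q ∈ T ∧ ∃ R ∈ corona T P k, (R ∩ Q).Nonempty}

/-- condition (b) -/
def CondB (T : Set (Set (Hyp ι))) (k : ℕ) : Prop :=
  ∀ P ∈ T, ∀ Q ∈ T, ∃ g : Hyp ι ≃ Hyp ι, IsIso g ∧ g '' P = Q ∧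
    (fun A => g '' A) '' corona T P k = corona T Q k

/-! ### the tiling -/

/-- parameters: `lam ^ (k + 1) = 2`, `c` large -/
structure Par (k : ℕ) where
  lam : ℝ
  c : ℝ
  one_lt : 1 < lam
  pow : lam ^ (k + 1) = 2
  big : (k : ℝ) + 1 < c * (lam ^ 2 - 1)

/-- the integer `e ≡ i` modulo `k + 1` with `l ≤ e ≤ l + k` -/
def ex {k : ℕ} (i : ZMod (k + 1)) (l : ℤ) : ℤ := l + ((i - (l : ZMod (k + 1))).val : ℤ)

/-- the side of the boxes of the level `l` in the direction `i` -/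
noncomputable def sd {k : ℕ} (A : Par k) (i : ZMod (k + 1)) (l : ℤ) : ℝ := A.lam ^ (ex i l)

/-- `g` -/
noncomputable def gf (t : ℝ) : ℝ := Int.fract t * (1 - Int.fract t)

/-- `G_l(x)` -/
noncomputable def GG {k : ℕ} (A : Par k) (l : ℤ) (x : ZMod (k + 1) → ℝ) : ℝ :=
  A.c * A.lam ^ (2 * l) + ∑ i, sd A i l ^ 2 * gf (x i / sd A i l)

/-- the tiles -/
def tile {k : ℕ} (A : Par k) (l : ℤ) (a : ZMod (k + 1) → ℤ) : Set (Hyp (ZMod (k + 1))) :=
  {z | (∀ i, a i * sd A i l ≤ z.x i ∧ z.x i ≤ (a i + 1) * sd A i l) ∧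
    GG A (l - 1) z.x ≤ z.y ^ 2 ∧ z.y ^ 2 ≤ GG A l z.x}

/-- the tiling -/
def tiles {k : ℕ} (A : Par k) : Set (Set (Hyp (ZMod (k + 1)))) := {P | ∃ l a, P = tile A l a}

/-- `α (|x|^2 + y^2) + ⟨β, x⟩ + γ` -/
noncomputable def Phi (α : ℝ) (β : ι → ℝ) (γ : ℝ) (z : Hyp ι) : ℝ :=
  α * ((∑ i, z.x i ^ 2) + z.y ^ 2) + (∑ i, β i * z.x i) + γ

/-! ### half-spaces -/

/-- [PL] 80 lines. First (as `Real.arsinh` and `√` are monotone)
`hdist z p ≤ hdist z q ↔ sq z p * q.y ≤ sq z q * p.y`, and the same with `=`. With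
`N = ∑ x_i^2 + y^2` we have `sq z p = N - 2 ⟨x, p.x⟩ - 2 y p.y + |p.x|^2 + p.y^2`, so
`sq z p * q.y - sq z q * p.y = (q.y - p.y) N - 2 ⟨x, q.y p.x - p.y q.x⟩ + const`.
If `α = 0`: `p = (x0 - β, 1)`, `q = (x0 + β, 1)` where `x0` are the coordinates of the zero `z0`;
then `sq z p - sq z q = 4 ⟨β, x - x0⟩ = 4 Phi z`. If `α > 0`: put `w = -β / (2 α)`,
`ρ = |w|^2 - γ / α`, so `Phi z = α (|x - w|^2 + y^2 - ρ)` and `ρ > 0` as there is a zero;
`p = (w, √ρ / 2)`, `q = (w, 2 √ρ)`. If `α < 0` exchange `p` and `q` (apply the case `α > 0` to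
`-Phi`). -/
def S_PL : Prop := ∀ (ι : Type) [Fintype ι] (α : ℝ) (β : ι → ℝ) (γ : ℝ), (α ≠ 0 ∨ β ≠ 0) →
  (∃ z0 : Hyp ι, Phi α β γ z0 = 0) → ∃ p q : Hyp ι, p ≠ q ∧
    (∀ z, z ∈ HS p q ↔ Phi α β γ z ≤ 0) ∧ (∀ z, hdist z p = hdist z q ↔ Phi α β γ z = 0)

/-- [PLI] 50 lines. `Phi z = sq z p * q.y - sq z q * p.y`, see `S_PL`. -/
def S_PLI : Prop := ∀ (ι : Type) [Fintype ι] (p q : Hyp ι), p ≠ q →
  ∃ (α : ℝ) (β : ι → ℝ) (γ : ℝ), (α ≠ 0 ∨ β ≠ 0) ∧ Phi α β γ p < 0 ∧ 0 < Phi α β γ q ∧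
    (∀ z, z ∈ HS p q ↔ Phi α β γ z ≤ 0) ∧ (∀ z, z ∈ HS q p ↔ 0 ≤ Phi α β γ z) ∧
    (∀ z, hdist z p = hdist z q ↔ Phi α β γ z = 0)

/-! ### numbers -/

/-- [EX] 60 lines. (1) `l ≤ ex i l ≤ l + k`. (2) If `i = l` (in `ZMod (k+1)`) then `ex i l = l` and
`ex i (l + 1) = l + k + 1`, otherwise `ex i (l + 1) = ex i l`. (3), (4): shifts. -/
def S_EX : Prop := ∀ (k : ℕ) (i : ZMod (k + 1)) (l : ℤ),
  (l ≤ ex i l ∧ ex i l ≤ l + k) ∧
  (i = (l : ZMod (k + 1)) → ex i l = l ∧ ex i (l + 1) = l + k + 1) ∧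
  (i ≠ (l : ZMod (k + 1)) → ex i (l + 1) = ex i l) ∧
  (∀ d : ℤ, ex (i + (d : ZMod (k + 1))) (l + d) = ex i l + d) ∧
  ex i (l + (k + 1)) = ex i l + (k + 1)

/-- [SD] 60 lines, from `S_EX`. (1) positive; (2) bounds (`lam ^ (l + k) ≤ 2 * lam ^ l`);
(3), (4) one level; (5) the sides of the higher levels are integral multiples (induction on
`L - l`); (6) `sd (l + k + 1) = 2 sd l`; (7) scaling. -/
def S_SD : Prop := ∀ (k : ℕ) (A : Par k) (i : ZMod (k + 1)) (l : ℤ),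
  0 < sd A i l ∧ (A.lam ^ l ≤ sd A i l ∧ sd A i l ≤ 2 * A.lam ^ l) ∧
  (i = (l : ZMod (k + 1)) → sd A i (l + 1) = 2 * sd A i l) ∧
  (i ≠ (l : ZMod (k + 1)) → sd A i (l + 1) = sd A i l) ∧
  (∀ L : ℤ, l ≤ L → ∃ N : ℤ, sd A i L = N * sd A i l) ∧
  sd A i (l + (k + 1)) = 2 * sd A i l ∧
  (∀ d : ℤ, sd A (i + (d : ZMod (k + 1))) (l + d) = A.lam ^ d * sd A i l)

/-- [GF] 30 lines. (3): `t - n = fract t + j` with an integer `j`, and
`f (1 - f) - (f + j)(1 - f - j) = j (j + 2 f - 1) ≥ 0`, where `0 ≤ f < 1`, with equality iff `j = 0`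
or (`j = 1`, `f = 0`). -/
def S_GF : Prop := (∀ t : ℝ, 0 ≤ gf t ∧ gf t ≤ 1 / 4) ∧
  (∀ (t : ℝ) (n : ℤ), gf (t + n) = gf t ∧ gf (n - t) = gf t) ∧
  (∀ (t : ℝ) (n : ℤ), (t - n) * (n + 1 - t) ≤ gf t ∧
    ((t - n) * (n + 1 - t) = gf t ↔ (n : ℝ) ≤ t ∧ t ≤ n + 1)) ∧ Continuous gf

/-- [GAP] 50 lines, from `S_SD`, `S_GF`: `s^2 g ≤ s^2 / 4 ≤ lam ^ (2 (l - 1))` and
`c + (k + 1) < c lam^2`. -/
def S_GAP : Prop := ∀ (k : ℕ) (A : Par k) (l : ℤ), 0 < A.c ∧
  (∀ x, A.c * A.lam ^ (2 * l) ≤ GG A l x) ∧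
  (∀ x, GG A (l - 1) x ≤ A.c * A.lam ^ (2 * (l - 1)) + (k + 1) * A.lam ^ (2 * (l - 1))) ∧
  A.c * A.lam ^ (2 * (l - 1)) + (k + 1) * A.lam ^ (2 * (l - 1)) < A.c * A.lam ^ (2 * l)

/-- [GCONT] 15 lines. -/
def S_GCONT : Prop := ∀ (k : ℕ) (A : Par k) (l : ℤ), Continuous (GG A l)

/-! ### the tiling -/

/-- [COV] 60 lines, from `S_GAP`: let `l` be the least integer with `z.y ^ 2 ≤ GG A l z.x` (there is
one as `GG A l x ≥ c lam^(2l)`, and they are bounded below as `GG A (l-1) x ≤ c lam^(2l)`), and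
`a i = ⌊z.x i / sd A i l⌋`. -/
def S_COV : Prop := ∀ (k : ℕ) (A : Par k) (z : Hyp (ZMod (k + 1))), ∃ (l : ℤ) (a : ZMod (k + 1) → ℤ),
  z ∈ tile A l a

/-- [LEV] 30 lines, from `S_GAP`: `GG A l x < GG A l' x` for `l < l'`. -/
def S_LEV : Prop := ∀ (k : ℕ) (A : Par k) (l l' : ℤ) (a a' : ZMod (k + 1) → ℤ),
  (tile A l a ∩ tile A l' a').Nonempty → l' ≤ l + 1

/-- [INT] 60 lines. If one of the inequalities were an equality, there would be points outside the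
tile arbitrarily close to `z`: change `z.x i`, or `z.y`. -/
def S_INT : Prop := ∀ (k : ℕ) (A : Par k) (l : ℤ) (a : ZMod (k + 1) → ℤ) (z : Hyp (ZMod (k + 1))),
  z ∈ interior (tile A l a) → (∀ i, a i * sd A i l < z.x i ∧ z.x i < (a i + 1) * sd A i l) ∧
    GG A (l - 1) z.x < z.y ^ 2 ∧ z.y ^ 2 < GG A l z.x

/-- [DIS] 40 lines, from `S_INT`, `S_GAP`. If `z` is in the interior of the first tile and in the
second tile, then `l = l'` (as `GG A l x < GG A l' x` for `l < l'`) and `a = a'`. -/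
def S_DIS : Prop := ∀ (k : ℕ) (A : Par k) (l l' : ℤ) (a a' : ZMod (k + 1) → ℤ),
  tile A l a ≠ tile A l' a' → Disjoint (interior (tile A l a)) (interior (tile A l' a'))

/-- [EQT] 60 lines, from `S_SD`, `S_GF`. The tile as the set of the solutions of finitely many
inequalities: `top` is `y^2 ≤ c lam^(2l) + ∑ (x_i - a_i s_i) ((a_i + 1) s_i - x_i)`, and there are two
lower ones: for `b` with `b i = a i` (`i ≠ l - 1`) and `b i = 2 a i` or `2 a i + 1` for `i = l - 1`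
(note that `sd A i l = 2 sd A i (l - 1)` for this `i`): in the box,
`GG A (l-1) x` is the greater one of the two right hand sides (`S_GF` (3)). -/
def S_EQT : Prop := ∀ (k : ℕ) (A : Par k) (l : ℤ) (a : ZMod (k + 1) → ℤ) (z : Hyp (ZMod (k + 1))),
  z ∈ tile A l a ↔ (∀ i, a i * sd A i l ≤ z.x i ∧ z.x i ≤ (a i + 1) * sd A i l) ∧
    z.y ^ 2 ≤ A.c * A.lam ^ (2 * l) +
      ∑ i, (z.x i - a i * sd A i l) * ((a i + 1) * sd A i l - z.x i) ∧
    ∀ e : Fin 2, A.c * A.lam ^ (2 * (l - 1)) +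
      ∑ i, (z.x i - (if i = ((l - 1 : ℤ) : ZMod (k + 1)) then 2 * a i + (e : ℤ) else a i : ℤ) *
          sd A i (l - 1)) *
        (((if i = ((l - 1 : ℤ) : ZMod (k + 1)) then 2 * a i + (e : ℤ) else a i : ℤ) + 1) *
          sd A i (l - 1) - z.x i) ≤ z.y ^ 2

/-- [POLY] 100 lines, from `S_EQT`, `S_PL`, `S_GAP`, `S_GCONT`. All the inequalities of `S_EQT` are
`Phi α β γ z ≤ 0` with `α ≠ 0 ∨ β ≠ 0` and with zeros in the half-space. Compact: the image under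
`p ↦ (p.x, p.y)` is closed and bounded and `y ≥ √c lam^(l-1)`. Interior point: the centre of the
box with `y^2` between `GG A (l-1) x` and `GG A l x`; the set of the strict inequalities is open. -/
def S_POLY : Prop := ∀ (k : ℕ) (A : Par k) (l : ℤ) (a : ZMod (k + 1) → ℤ), IsPolytope (tile A l a)

/-- [FACE0] 60 lines, from `S_PL`. The same level. Let `I⁺`, `I⁻` be the sets of the `i` with
`a' i = a i + 1`, `a' i = a i - 1`; the others have `a' i = a i` as the boxes meet. The intersection is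
the set of the `z` in the first tile with `x_i = (a i + 1) s_i` on `I⁺`, `x_i = a i s_i` on `I⁻`: use
`Phi = ∑_(I⁺) (x_i - (a i + 1) s_i) + ∑_(I⁻) (a i s_i - x_i)`. -/
def S_FACE0 : Prop := ∀ (k : ℕ) (A : Par k) (l : ℤ) (a a' : ZMod (k + 1) → ℤ), a ≠ a' →
  tile A l a ∩ tile A l a' = ∅ ∨ IsFace (tile A l a) (tile A l a ∩ tile A l a')

/-- [FACE1] 100 lines, from `S_PL`, `S_EQT`, `S_SD`, `S_GAP`. The upper neighbour, as seen from the lower
tile. The intersection is the set of the `z` in the lower tile with `y^2 = GG A l x` and `x` in the box of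
`a'` of the level `l + 1`. For `i ≠ l` as in `S_FACE0`; for `i = l` the side is
`[2 a' s, (2 a' + 2) s]`, `s = sd A i l`, which contains `[a s, (a + 1) s]` (if `a = 2 a'` or `2 a' + 1`)
or meets it in its lower end (`a = 2 a' + 2`) or upper end (`a = 2 a' - 1`). Use the sum of the functionals
of these walls and of `y^2 - (c lam^(2l) + ∑ ..) ≤ 0`. -/
def S_FACE1 : Prop := ∀ (k : ℕ) (A : Par k) (l : ℤ) (a a' : ZMod (k + 1) → ℤ),
  tile A l a ∩ tile A (l + 1) a' = ∅ ∨ IsFace (tile A l a) (tile A l a ∩ tile A (l + 1) a')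

/-- [FACE2] 100 lines, from `S_PL`, `S_EQT`, `S_SD`, `S_GF`, `S_GAP`. The lower neighbour, as seen from the
upper tile. Let `b i = a' i` for `i ≠ l` and for `i = l` let `b i` be `a i` if `a i` is `2 a' i` or
`2 a' i + 1`, `2 a' i + 1` if `a i = 2 a' i + 2` and `2 a' i` if `a i = 2 a' i - 1`. The box of `a` (level `l`)
and the box of `a'` (level `l + 1`) meet in the intersection of the box of `b` (level `l`) and of some walls
`x_i = (a' i + 1) s_i(l+1)` or `x_i = a' i s_i(l+1)`. The functional is the sum of those of these walls and of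
`c lam^(2l) + ∑ (x_i - b i s_i)((b i + 1) s_i - x_i) - y^2 ≤ 0` (`s_i = sd A i l`). If it is zero, then
`y^2 = c lam^(2l) + ∑ .. ≤ GG A l x ≤ y^2`, so `x` is in the box of `b` by `S_GF` (3). -/
def S_FACE2 : Prop := ∀ (k : ℕ) (A : Par k) (l : ℤ) (a a' : ZMod (k + 1) → ℤ),
  tile A l a ∩ tile A (l + 1) a' = ∅ ∨ IsFace (tile A (l + 1) a') (tile A l a ∩ tile A (l + 1) a')

/-- [TIL] 30 lines, from `S_COV`, `S_LEV`, `S_DIS`, `S_POLY`, `S_FACE0`, `S_FACE1`, `S_FACE2`. -/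
def S_TIL : Prop := ∀ (k : ℕ) (A : Par k), IsTiling (tiles A)

/-! ### the isometries -/

/-- [SIM] 50 lines. The map `(x, y) ↦ (x', lam^d y)`, `x'_j = τ_j + ε_j lam^d x_(j - d)`, `ε_j = ± 1`, is an
isometry (and bijective: the inverse is of the same form, or by injectivity and surjectivity). -/
def S_SIM : Prop := ∀ (k : ℕ) (A : Par k) (d : ℤ) (τ ε : ZMod (k + 1) → ℝ),
  (∀ j, ε j = 1 ∨ ε j = -1) →
  ∃ g : Hyp (ZMod (k + 1)) ≃ Hyp (ZMod (k + 1)), IsIso g ∧ ∀ z,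
    (∀ j, (g z).x j = τ j + ε j * A.lam ^ d * z.x (j - (d : ZMod (k + 1)))) ∧ (g z).y = A.lam ^ d * z.y

/-- [IMG] 100 lines, from `S_SD`, `S_GF`. A map as in `S_SIM` maps the tile `tile A L b` onto the tile
`tile A (L + d) b'` if `τ_j` and `τ_j'` are integral multiples of the sides of the levels `L + d` and
`L + d - 1` (the second follows from the first): `τ_j = N_j sd A j (L + d)`,
`b'_j = N_j + b_(j-d)` if `ε_j = 1` and `b'_j = N_j - b_(j-d) - 1` if `ε_j = -1`;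
`GG A (L + d) x' = lam^(2d) GG A L x` because `gf` is even and periodic, and the same for `L - 1`. -/
def S_IMG : Prop := ∀ (k : ℕ) (A : Par k) (d L : ℤ) (τ ε : ZMod (k + 1) → ℝ) (N b b' : ZMod (k + 1) → ℤ)
  (g : Hyp (ZMod (k + 1)) ≃ Hyp (ZMod (k + 1))),
  (∀ z, (∀ j, (g z).x j = τ j + ε j * A.lam ^ d * z.x (j - (d : ZMod (k + 1)))) ∧
    (g z).y = A.lam ^ d * z.y) →
  (∀ j, τ j = N j * sd A j (L + d)) →
  (∀ j, (ε j = 1 ∧ b' j = N j + b (j - (d : ZMod (k + 1)))) ∨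
    (ε j = -1 ∧ b' j = N j - b (j - (d : ZMod (k + 1))) - 1)) →
  g '' tile A L b = tile A (L + d) b'

/-- [GAM] 100 lines, from `S_SIM`, `S_IMG`, `S_SD`. `d = l' - l`. Let `j` be given and
`u = a (j - d)`. If `a' j - u` is even, take `ε j = 1`, `τ j = (a' j - u) sd A j l'`, otherwise
`ε j = -1`, `τ j = (a' j + u + 1) sd A j l'`. In both cases `τ j` is an even multiple of `sd A j l'`, so a
multiple of `sd A j (l' + k + 1)`, so of all `sd A j (L + d)` with `L ≤ l + k + 1`. Apply `S_IMG` to `g`; for the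
inverse: the image under `g` of `tile A (L - d) b` for a suitable `b` is the tile `tile A L b'`
(`b` is determined by the same formulas). -/
def S_GAM : Prop := ∀ (k : ℕ) (A : Par k) (l l' : ℤ) (a a' : ZMod (k + 1) → ℤ),
  ∃ g : Hyp (ZMod (k + 1)) ≃ Hyp (ZMod (k + 1)), IsIso g ∧ g '' tile A l a = tile A l' a' ∧
    (∀ (L : ℤ) (b : ZMod (k + 1) → ℤ), L ≤ l + (k + 1) → ∃ b', g '' tile A L b = tile A (L + (l' - l)) b') ∧
    (∀ (L : ℤ) (b' : ZMod (k + 1) → ℤ), L ≤ l' + (k + 1) → ∃ b, g '' tile A (L - (l' - l)) b = tile A L b')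

/-- [COR] 60 lines, from `S_GAM`, `S_LEV`. By induction on `r ≤ k + 1`: every element of
`corona (tiles A) (tile A l a) r` is a `tile A L b` with `L ≤ l + r`, and its image under `g` is in
`corona (tiles A) (tile A l' a') r`; the other inclusion is similar with the inverse of `g`. -/
def S_COR : Prop := ∀ (k : ℕ) (A : Par k) (r : ℕ), r ≤ k + 1 → CondB (tiles A) r

/-! ### the tiling is not isohedral -/

/-- the hyperplane (bisector) of `p`, `q` does not cut any tile -/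
def Wall (T : Set (Set (Hyp ι))) (p q : Hyp ι) : Prop :=
  p ≠ q ∧ ∀ P ∈ T, P ⊆ HS p q ∨ P ⊆ HS q p

/-- [WALL1] 60 lines, from `S_PLI`, `S_GAP`. `α = 0`. If `α ≠ 0` we may assume `α > 0` (exchange `p`, `q`):
`Phi z = α (|x - w|^2 + y^2 - ρ)` with `ρ > 0` as `Phi p < 0`. Let `l` be such that `c lam^(2l) < ρ`,
let `v` be strictly between the two numbers in the last line of `S_GAP`, `R^2 = ρ - v`,
`x = w + R e_0`, `y^2 = v`, `a i = ⌊x i / sd A i l⌋`. Then `(x, y')` is in `tile A l a` for all `y'` close to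
`y`, and `Phi (x, y') = α (y'^2 - v)` has both signs. -/
def S_WALL1 : Prop := ∀ (k : ℕ) (A : Par k) (p q : Hyp (ZMod (k + 1))) (α : ℝ)
  (β : ZMod (k + 1) → ℝ) (γ : ℝ), Wall (tiles A) p q → Phi α β γ p < 0 →  0 < Phi α β γ q →
  (∀ z, z ∈ HS p q ↔ Phi α β γ z ≤ 0) → (∀ z, z ∈ HS q p ↔ 0 ≤ Phi α β γ z) → α = 0

/-- [WALL2] 80 lines, from `S_PLI`, `S_WALL1`, `S_GAP`. By `S_WALL1` the functional is
`h (x) = ⟨β, x⟩ + γ`, `β ≠ 0`. CLAIM: if `h x = 0`, `l` is a level and `β i ≠ 0` then `x i` is an integral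
multiple of `sd A i l`. Otherwise `a i s_i < x i < (a i + 1) s_i` for `a j = ⌊x j / s_j⌋`, the points
`(x', √(GG A l x'))` with `x' = x ± δ e_i` are in `tile A l a` and `h` has both signs on them.
If `β i ≠ 0` and `β j ≠ 0`, `i ≠ j`, then the zeros `x + t (β j e_i - β i e_j)` contradict the claim. So
`β = β_i e_i` and `x_i = -γ / β_i` is a multiple of `sd A i l` for all `l`, hence zero
(`sd A i l ≥ lam^l → ∞`). -/
def S_WALL2 : Prop := ∀ (k : ℕ) (A : Par k) (p q : Hyp (ZMod (k + 1))), Wall (tiles A) p q →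
  ∃ i : ZMod (k + 1), ∀ z, hdist z p = hdist z q ↔ z.x i = 0

/-- [NON] 60 lines, from `S_WALL2`, `S_PL` (or directly), `S_SD`. `p0 = (-e_0, 1)`, `q0 = (e_0, 1)`: the bisector
is `x_0 = 0`, a wall, and touches `tile A 0 0`. If `g` is an isometry that preserves the tiling and maps
`tile A 0 0` onto `tile A 0 1` (all `a i = 1`), then the bisector of `g p0`, `g q0` is a wall and touches
`tile A 0 1`. By `S_WALL2` `tile A 0 1` has a point with `x i = 0`, but `x i ≥ sd A i 0 > 0` there. -/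
def S_NON : Prop := ∀ (k : ℕ) (A : Par k), ¬ Isohedral (tiles A)

/-- [PAR] 10 lines: `lam = 2 ^ (1 / (k+1))`, `c = (k + 2) / (lam^2 - 1)` -/
def S_PAR : Prop := ∀ k : ℕ, Nonempty (Par k)

/-- the final theorem (`n = k + 2`) -/
def S_FINAL : Prop := ∀ k : ℕ, ∃ T : Set (Set (Hyp (ZMod (k + 1)))), IsTiling T ∧ Monohedral T ∧
  (∀ r : ℕ, r ≤ k + 1 → CondB T r) ∧ ¬ Isohedral T

end Pool.Agent.L7h31.CR
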