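import Pool.Agent.L7h31.CR.Cor
import Pool.Agent.L7h31.CR.Til
import Pool.Agent.L7h31.CR.Non
import Pool.Agent.L7h15.CR.Pl
import Pool.Agent.L7h15.CR.Til
import Pool.Agent.L7h6.CR.Ex
import Pool.Agent.L7h6.CR.Sd
import Pool.Agent.L7h6.CR.Gf
import Pool.Agent.L7h6.CR.Gap
import Pool.Agent.L7h91.CR.Face
import Pool.Agent.L7h63.CR.Gam
import Pool.Agent.L7h63.CR.Img
import Pool.Agent.L7h63.CR.Sim
import Pool.Agent.L7h41.CR.Poly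
import Pool.Agent.L7h41.CR.Wall1
import Pool.Agent.L7h41.CR.Wall2

/-!
# The tilings of hyperbolic space with congruent coronas: assembly
-/

set_option autoImplicit false

namespace Pool.Agent.L7h31.CR

theorem sd_ok : S_SD := Pool.Agent.L7h6.CR.s_SD Pool.Agent.L7h6.CR.s_EX

theorem gap_ok : S_GAP := Pool.Agent.L7h6.CR.s_GAP sd_ok Pool.Agent.L7h6.CR.s_GF

theorem pl_ok : S_PL := Pool.Agent.L7h15.CR.s_PL

theorem poly_ok : S_POLY :=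
  Pool.Agent.L7h41.CR.s_POLY (Pool.Agent.L7h15.CR.s_EQT sd_ok Pool.Agent.L7h6.CR.s_GF) pl_ok gap_ok
    (Pool.Agent.L7h6.CR.s_GCONT Pool.Agent.L7h6.CR.s_GF) sd_ok

theorem til_ok : S_TIL :=
  s_TIL (Pool.Agent.L7h15.CR.s_COV gap_ok sd_ok) (Pool.Agent.L7h15.CR.s_LEV gap_ok)
    (Pool.Agent.L7h15.CR.s_DIS Pool.Agent.L7h15.CR.s_INT gap_ok) poly_ok
    (Pool.Agent.L7h91.CR.s_FACE0 pl_ok sd_ok)
    (Pool.Agent.L7h91.CR.s_FACE1 pl_ok sd_ok gap_ok)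
    (Pool.Agent.L7h91.CR.s_FACE2 pl_ok sd_ok Pool.Agent.L7h6.CR.s_GF gap_ok)

theorem cor_ok : S_COR :=
  s_COR (Pool.Agent.L7h63.CR.s_GAM Pool.Agent.L7h63.CR.s_SIM
    (Pool.Agent.L7h63.CR.s_IMG sd_ok Pool.Agent.L7h6.CR.s_GF) sd_ok) (Pool.Agent.L7h15.CR.s_LEV gap_ok)

theorem non_ok : S_NON :=
  s_NON (Pool.Agent.L7h41.CR.s_WALL2 Pool.Agent.L7h15.CR.s_PLI
    (Pool.Agent.L7h41.CR.s_WALL1 gap_ok sd_ok) gap_ok sd_ok) sd_ok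

theorem final_ok : S_FINAL := by
  intro k
  obtain ⟨A⟩ := s_PAR k
  refine ⟨tiles A, til_ok k A, ?_, fun r hr => cor_ok k A r hr, non_ok k A⟩
  intro P hP Q hQ
  obtain ⟨g, h1, h2, -⟩ := cor_ok k A 0 (Nat.zero_le _) P hP Q hQ
  exact ⟨g, h1, h2⟩

end Pool.Agent.L7h31.CR
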