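import Pool.Agent.L7h31.CR.Stm

set_option autoImplicit false

namespace Pool.Agent.L7h31.CR

open Set

theorem s_COR : S_GAM → S_LEV → S_COR := by
  intro hG hL k A r hr P hP Q hQ
  obtain ⟨l, a, rfl⟩ := hP
  obtain ⟨l', a', rfl⟩ := hQ
  obtain ⟨g, hg, hgP, hup, hdn⟩ := hG k A l l' a a'
  refine ⟨g, hg, hgP, ?_⟩
  -- levels of the coronas
  have lev : ∀ (l0 : ℤ) (a0 : ZMod (k + 1) → ℤ) (s : ℕ), ∀ R ∈ corona (tiles A) (tile A l0 a0) s,
      ∃ (L : ℤ) (b : ZMod (k + 1) → ℤ), L ≤ l0 + s ∧ R = tile A L b := by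
    intro l0 a0 s
    induction s with
    | zero =>
      intro R hR
      exact ⟨l0, a0, by simp, hR⟩
    | succ s ih =>
      rintro R ⟨⟨L, b, rfl⟩, R', hR', hne⟩
      obtain ⟨L', b', h1, rfl⟩ := ih R' hR'
      refine ⟨L, b, ?_, rfl⟩
      have := hL k A L' L b' b hne
      push_cast
      linarith
  have fwd : ∀ s : ℕ, s ≤ k + 1 → ∀ R ∈ corona (tiles A) (tile A l a) s,
      g '' R ∈ corona (tiles A) (tile A l' a') s := by
    intro s
    induction s with
    | zero =>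
      intro _ R hR
      have hR' : R = tile A l a := hR
      show g '' R = tile A l' a'
      rw [hR', hgP]
    | succ s ih =>
      intro hs R hR
      obtain ⟨L, b, hLs, hRL⟩ := lev l a (s + 1) R hR
      obtain ⟨hT, R', hR', hne⟩ := hR
      have h1 : L ≤ l + (k + 1) := by
        have : ((s + 1 : ℕ) : ℤ) ≤ k + 1 := by exact_mod_cast hs
        linarith
      obtain ⟨b', hb'⟩ := hup L b h1
      refine ⟨⟨_, b', by rw [hRL, hb']⟩, g '' R', ih (by omega) R' hR', ?_⟩
      rw [← Set.image_inter g.injective]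
      exact hne.image _
  have bwd : ∀ s : ℕ, s ≤ k + 1 → ∀ R ∈ corona (tiles A) (tile A l' a') s,
      ∃ R0 ∈ corona (tiles A) (tile A l a) s, g '' R0 = R := by
    intro s
    induction s with
    | zero =>
      intro _ R hR
      have hR' : R = tile A l' a' := hR
      exact ⟨tile A l a, rfl, by rw [hR', hgP]⟩
    | succ s ih =>
      intro hs R hR
      obtain ⟨L, b', hLs, hRL⟩ := lev l' a' (s + 1) R hR
      obtain ⟨hT, R', hR', hne⟩ := hR
      have h1 : L ≤ l' + (k + 1) := by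
        have : ((s + 1 : ℕ) : ℤ) ≤ k + 1 := by exact_mod_cast hs
        linarith
      obtain ⟨b, hb⟩ := hdn L b' h1
      obtain ⟨R0, hR0, hgR0⟩ := ih (by omega) R' hR'
      refine ⟨tile A (L - (l' - l)) b, ⟨⟨_, b, rfl⟩, R0, hR0, ?_⟩, by rw [hb, hRL]⟩
      have h2 : (g '' (R0 ∩ tile A (L - (l' - l)) b)).Nonempty := by
        rw [Set.image_inter g.injective, hgR0, hb, ← hRL]
        exact hne
      exact Set.image_nonempty.1 h2
  ext R
  constructor
  · rintro ⟨R0, hR0, rfl⟩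
    exact fwd r hr R0 hR0
  · intro hR
    obtain ⟨R0, h1, h2⟩ := bwd r hr R hR
    exact ⟨R0, h1, h2⟩

end Pool.Agent.L7h31.CR
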